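import Pool.Agent.RTB.W39

/-!
# RTC, module Vf39: van der Corput's inequality, finite form
-/

set_option autoImplicit false

open Filter Finset
open scoped Topology ComplexConjugate

namespace Pool.Agent.RTC.Vf39

/-- van der Corput's inequality: if `‖u n‖ ≤ 1` and the correlations
`∑ n < N, u (n + k) * conj (u n)`, `1 ≤ k < H`, are at most `D`, then
`‖∑ n < N, u n‖ ≤ √(N ^ 2 / H + N D + 2 H N) + 2 H`. -/
theorem vdc_fin (u : ℕ → ℂ) (hu : ∀ n, ‖u n‖ ≤ 1) (N H : ℕ) (hH : 1 ≤ H) (D : ℝ) (hD : 0 ≤ D)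
    (h : ∀ k : ℕ, 1 ≤ k → k < H → ‖∑ n ∈ range N, u (n + k) * conj (u n)‖ ≤ D) :
    ‖∑ n ∈ range N, u n‖ ≤ Real.sqrt ((N : ℝ) ^ 2 / H + N * D + 2 * H * N) + 2 * H := by
  have hHp : (0 : ℝ) < H := by exact_mod_cast hH
  have hN0 : (0 : ℝ) ≤ N := Nat.cast_nonneg N
  have hc1 : ∀ a b : ℕ, b < a → a < H →
      ‖∑ n ∈ range N, u (n + a) * conj (u (n + b))‖ ≤ D + 2 * H := by
    intro a b hab ha
    have h1 := RTB.W39.shift (fun n => u (n + (a - b)) * conj (u n)) (fun n => by
      rw [norm_mul, RCLike.norm_conj]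
      exact mul_le_one₀ (hu _) (norm_nonneg _) (hu _)) b N
    have h2 := h (a - b) (by omega) (by omega)
    have e : ∑ n ∈ range N, u (n + a) * conj (u (n + b)) =
        ∑ n ∈ range N, u (n + b + (a - b)) * conj (u (n + b)) :=
      Finset.sum_congr rfl fun n _ => by
        rw [show n + b + (a - b) = n + a by omega]
    rw [e]
    have hb : (b : ℝ) ≤ H := by exact_mod_cast (by omega : b ≤ H)
    have h3 := norm_add_le (∑ n ∈ range N, u (n + b + (a - b)) * conj (u (n + b)) -
      ∑ n ∈ range N, u (n + (a - b)) * conj (u n)) (∑ n ∈ range N, u (n + (a - b)) * conj (u n))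
    rw [sub_add_cancel] at h3
    linarith
  have hc : ∀ a b : ℕ, a ≠ b → a < H → b < H →
      ‖∑ n ∈ range N, u (n + a) * conj (u (n + b))‖ ≤ D + 2 * H := by
    intro a b hab ha hb
    rcases lt_or_gt_of_ne hab with h2 | h2
    · have h3 := hc1 b a h2 hb
      rw [← RCLike.norm_conj, map_sum] at h3
      refine le_trans (le_of_eq ?_) h3
      congr 1
      refine Finset.sum_congr rfl fun n _ => ?_
      rw [map_mul, Complex.conj_conj, mul_comm]
    · exact hc1 a b h2 ha
  set S : ℕ → ℂ := fun n => ∑ a ∈ range H, u (n + a) with hS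
  have e1 : ∑ n ∈ range N, S n = ∑ a ∈ range H, ∑ n ∈ range N, u (n + a) := Finset.sum_comm
  have e2 : ‖(H : ℂ) * ∑ n ∈ range N, u n - ∑ n ∈ range N, S n‖ ≤ 2 * H * H := by
    have e3 : (H : ℂ) * ∑ n ∈ range N, u n - ∑ n ∈ range N, S n =
        ∑ a ∈ range H, (∑ n ∈ range N, u n - ∑ n ∈ range N, u (n + a)) := by
      rw [e1, Finset.sum_sub_distrib, Finset.sum_const, card_range, nsmul_eq_mul]
    rw [e3]
    refine (norm_sum_le _ _).trans ?_
    calc ∑ a ∈ range H, ‖∑ n ∈ range N, u n - ∑ n ∈ range N, u (n + a)‖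
        ≤ ∑ a ∈ range H, (2 * H : ℝ) := by
          refine Finset.sum_le_sum fun a ha => ?_
          rw [norm_sub_rev]
          refine (RTB.W39.shift u hu a N).trans ?_
          have : (a : ℝ) ≤ H := by exact_mod_cast (mem_range.1 ha).le
          linarith
      _ = 2 * H * H := by
          rw [Finset.sum_const, card_range, nsmul_eq_mul]; ring
  have e4 : ∑ n ∈ range N, ‖S n‖ ^ 2 ≤ H * N + H ^ 2 * (D + 2 * H) := by
    have e5 : (((∑ n ∈ range N, ‖S n‖ ^ 2 : ℝ)) : ℂ) =
        ∑ a ∈ range H, ∑ b ∈ range H, ∑ n ∈ range N, u (n + a) * conj (u (n + b)) := by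
      have e6 : ∀ n, ((‖S n‖ ^ 2 : ℝ) : ℂ) =
          ∑ a ∈ range H, ∑ b ∈ range H, u (n + a) * conj (u (n + b)) := by
        intro n
        rw [← Complex.normSq_eq_norm_sq, ← Complex.mul_conj, hS]
        simp only [map_sum]
        rw [Finset.sum_mul_sum]
      push_cast
      have e7 : ∀ n ∈ range N, ((‖S n‖ : ℂ)) ^ 2 =
          ∑ a ∈ range H, ∑ b ∈ range H, u (n + a) * conj (u (n + b)) := by
        intro n _
        rw [← e6 n]
        push_cast
        rfl
      rw [Finset.sum_congr rfl e7, Finset.sum_comm]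
      exact Finset.sum_congr rfl fun a _ => Finset.sum_comm
    have e8 : ‖(((∑ n ∈ range N, ‖S n‖ ^ 2 : ℝ)) : ℂ)‖ ≤ H * N + H ^ 2 * (D + 2 * H) := by
      rw [e5]
      refine (norm_sum_le _ _).trans ?_
      calc ∑ a ∈ range H, ‖∑ b ∈ range H, ∑ n ∈ range N, u (n + a) * conj (u (n + b))‖
          ≤ ∑ a ∈ range H, (N + H * (D + 2 * H) : ℝ) := by
            refine Finset.sum_le_sum fun a ha => ?_
            refine (norm_sum_le _ _).trans ?_
            have e9 : ∀ b ∈ range H, ‖∑ n ∈ range N, u (n + a) * conj (u (n + b))‖ ≤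
                (if b = a then (N : ℝ) else 0) + (D + 2 * H) := by
              intro b hb
              by_cases hab : b = a
              · rw [if_pos hab]
                have : ‖∑ n ∈ range N, u (n + a) * conj (u (n + b))‖ ≤ N := by
                  refine (norm_sum_le _ _).trans ?_
                  calc ∑ n ∈ range N, ‖u (n + a) * conj (u (n + b))‖
                      ≤ ∑ n ∈ range N, (1 : ℝ) := by
                        refine Finset.sum_le_sum fun n _ => ?_
                        rw [norm_mul, RCLike.norm_conj]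
                        exact mul_le_one₀ (hu _) (norm_nonneg _) (hu _)
                    _ = N := by simp
                linarith
              · rw [if_neg hab, zero_add]
                exact hc a b (fun h => hab h.symm) (mem_range.1 ha) (mem_range.1 hb)
            refine (Finset.sum_le_sum e9).trans ?_
            rw [Finset.sum_add_distrib, Finset.sum_ite_eq' (range H) a, if_pos ha,
              Finset.sum_const, card_range, nsmul_eq_mul]
        _ = H * N + H ^ 2 * (D + 2 * H) := by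
            rw [Finset.sum_const, card_range, nsmul_eq_mul]; ring
    rw [Complex.norm_real] at e8
    exact (le_abs_self _).trans e8
  have e10 : ‖∑ n ∈ range N, S n‖ ^ 2 ≤ N * (H * N + H ^ 2 * (D + 2 * H)) := by
    have h6 : ‖∑ n ∈ range N, S n‖ ^ 2 ≤ (∑ n ∈ range N, ‖S n‖) ^ 2 :=
      pow_le_pow_left₀ (norm_nonneg _) (norm_sum_le _ _) 2
    have h7 := sq_sum_le_card_mul_sum_sq (s := range N) (f := fun n => ‖S n‖)
    rw [card_range] at h7
    refine h6.trans (h7.trans ?_)
    exact mul_le_mul_of_nonneg_left e4 hN0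
  set T : ℝ := Real.sqrt ((N : ℝ) ^ 2 / H + N * D + 2 * H * N) with hT
  have hT0 : 0 ≤ T := Real.sqrt_nonneg _
  have e11 : ‖∑ n ∈ range N, S n‖ ≤ H * T := by
    apply le_of_sq_le_sq _ (by positivity)
    rw [mul_pow, hT, Real.sq_sqrt (by positivity)]
    refine e10.trans (le_of_eq ?_)
    field_simp
    ring
  have e12 : (H : ℝ) * ‖∑ n ∈ range N, u n‖ ≤ H * (T + 2 * H) := by
    have h8 : ‖(H : ℂ) * ∑ n ∈ range N, u n‖ ≤ ‖∑ n ∈ range N, S n‖ +
        ‖(H : ℂ) * ∑ n ∈ range N, u n - ∑ n ∈ range N, S n‖ := by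
      have := norm_add_le (∑ n ∈ range N, S n) ((H : ℂ) * ∑ n ∈ range N, u n - ∑ n ∈ range N, S n)
      rwa [add_sub_cancel] at this
    rw [norm_mul, Complex.norm_natCast] at h8
    linarith
  exact le_of_mul_le_mul_left e12 hHp

end Pool.Agent.RTC.Vf39
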